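import Pool.Agent.J4H13.TL.Jobs

/-!
# Jobs ADJ and ADJ2: existence of adjoint curves
-/

set_option autoImplicit false

open MvPolynomial

namespace Pool.Agent.J4H41.TL

open Pool.Agent.J4H13.LA Pool.Agent.J4H13.TL

lemma W_le_two {n : ℕ} {w : Fin n → ℕ} (hw : IsWt w) {F : Finset (Fin n)} (hF : F.card ≤ 1) :
    W w F ≤ 2 := by
  have h1 : W w F ≤ F.card • 2 := Finset.sum_le_card_nsmul F w 2 fun i _ => by
    rcases hw i with h | h <;> omega
  rw [smul_eq_mul] at h1
  omega

/-- a plane containing two lines is a block -/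
lemma two_lines {n : ℕ} {l : Fin n → V3}
    (hl : ∀ i j, i ≠ j → LinearIndependent ℂ ![l i, l j]) {U : Submodule ℂ V3}
    (hU : Module.finrank ℂ U ≤ 2) (h2 : 2 ≤ (thr l U).card) :
    thr l U ∈ pts l ∧ ∃ i j, i ≠ j ∧ U = pt l i j := by
  obtain ⟨i, hi, j, hj, hij⟩ := Finset.one_lt_card.1 (by omega : 1 < (thr l U).card)
  rw [mem_thr] at hi hj
  have h3 := eq_pt hU (hl i j hij) hi hj
  exact ⟨mem_pts.2 ⟨i, j, hij, by rw [← h3]⟩, i, j, hij, h3⟩

theorem t_ADJ : S_ADJ := by
  classical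
  intro n k l w hl hw hk hcount
  -- the points as subspaces
  have hF : ∀ F : pts l, ∃ (U : Submodule ℂ V3) (β γ : P3 →ₐ[ℂ] P3), F.1 = thr l U ∧
      (∀ U' : Submodule ℂ V3, Module.finrank ℂ U' ≤ 2 → thr l U' = F.1 → U' = U) ∧
      (∀ P, β (γ P) = P) ∧ β (X 1) ∈ IW U ∧ β (X 2) ∈ IW U ∧
      ∀ (P : P3) (e : ℕ), P.IsHomogeneous e → (γ P).IsHomogeneous e := by
    rintro ⟨F, hF⟩
    obtain ⟨i, j, hij, rfl⟩ := mem_pts.1 hF
    obtain ⟨β, γ, h1, h2, h3, h4⟩ := exists_coord (hl i j hij) (mem_pt_left (l := l) i j)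
      (mem_pt_right (l := l) i j)
    refine ⟨pt l i j, β, γ, rfl, ?_, h1, h2, h3, h4⟩
    intro W' hW' hth
    have hi : i ∈ thr l W' := by
      rw [hth, mem_thr]
      exact mem_pt_left _ _
    have hj : j ∈ thr l W' := by
      rw [hth, mem_thr]
      exact mem_pt_right _ _
    rw [mem_thr] at hi hj
    exact eq_pt hW' (hl i j hij) hi hj
  choose U β γ hFU hUu hβγ hβ1 hβ2 hγ using hF
  let Λ : (tri (k - 3 + 1) → ℂ) →ₗ[ℂ] ((F : pts l) → tri (W w F.1 / 3 - 1) → ℂ) :=
    LinearMap.pi fun F => condL (k - 3) (γ F) (W w F.1 / 3 - 1)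
  have hker : LinearMap.ker Λ ≠ ⊥ := by
    apply LinearMap.ker_ne_bot_of_finrank_lt
    rw [Module.finrank_pi_fintype, Module.finrank_fintype_fun_eq_card, Fintype.card_coe, card_tri]
    simp only [Module.finrank_fintype_fun_eq_card, Fintype.card_coe, card_tri]
    have h1 : ∑ F : pts l, (W w F.1 / 3 - 1 + 1).choose 2 = cnt (pts l) w := by
      unfold cnt
      rw [← Finset.sum_coe_sort (pts l) (fun F => (W w F / 3).choose 2)]
      refine Finset.sum_congr rfl fun F _ => ?_
      rcases Nat.eq_zero_or_pos (W w F.1 / 3) with h0 | h0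
      · rw [h0]; decide
      · congr 1
        omega
    rw [h1]
    have h2 : k - 3 + 1 + 1 = k - 1 := by omega
    rw [h2]
    exact hcount
  obtain ⟨c, hc, hc0⟩ := (Submodule.ne_bot_iff _).1 hker
  refine ⟨form (k - 3) c, ?_, form_homog _ _, ?_⟩
  · intro h
    apply hc0
    funext x
    rw [← coeff_form (k - 3) c x, h, coeff_zero, Pi.zero_apply]
  · intro U' hU'
    by_cases h4 : 2 ≤ (thr l U').card
    · obtain ⟨hmem, -⟩ := two_lines hl hU' h4
      obtain ⟨F, hFdef⟩ : ∃ F : pts l, F = ⟨thr l U', hmem⟩ := ⟨_, rfl⟩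
      have hFc : F.1 = thr l U' := by rw [hFdef]
      have hUU : U' = U F := hUu F U' hU' hFc.symm
      rw [← hFc]
      rw [hUU]
      refine mem_pow_of_coeff (hβγ F) (hβ1 F) (hβ2 F) (hγ F) (form_homog _ _) ?_
      intro x hx
      have h5 : Λ c F = 0 := by
        rw [LinearMap.mem_ker.1 hc]
        rfl
      exact congrFun h5 ⟨x, hx⟩
    · have h5 : W w (thr l U') / 3 - 1 = 0 := by
        have := W_le_two hw (F := thr l U') (by omega)
        omega
      rw [h5, pow_zero, Ideal.one_eq_top]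
      trivial

theorem t_ADJ2 : S_ADJ2 := by
  classical
  intro n k l w hl hw hk hmult ⟨i, hi⟩ hl0
  refine ⟨lin (l i) ^ (k - 3), pow_ne_zero _ (lin_ne_zero (hl0 i)), ?_, ?_⟩
  · have := (lin_homog (l i)).pow (k - 3)
    rwa [one_mul] at this
  · intro U hU
    by_cases h4 : 6 ≤ W w (thr l U)
    · have h2 : 2 ≤ (thr l U).card := by
        by_contra hcon
        have := W_le_two hw (F := thr l U) (by omega)
        omega
      obtain ⟨hmem, -⟩ := two_lines hl hU h2
      have hiU : l i ∈ U := by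
        by_contra hcon
        have := hi _ hmem (fun h => hcon ((mem_thr l).1 h))
        omega
      have h5 := hmult _ hmem
      have h6 : W w (thr l U) / 3 - 1 ≤ k - 3 := by omega
      exact Ideal.pow_le_pow_right h6 (Ideal.pow_mem_pow (lin_mem_IW hiU) _)
    · have h5 : W w (thr l U) / 3 - 1 = 0 := by omega
      rw [h5, pow_zero, Ideal.one_eq_top]
      trivial

end Pool.Agent.J4H41.TL
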