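import Pool.Agent.J4H13.TL.Jobs

/-!
# Job REG: regularity of the 2-forms
-/

set_option autoImplicit false

open FF

namespace Pool.Agent.J4H41.TL

open Pool.Agent.J4H13.LA Pool.Agent.J4H13.TL Pool.Agent.W602.GT Pool.Agent.W603.LV

theorem t_REG : S_REG := by
  classical
  intro K _ _ x y hxy n k l w hn hl hw hsum hk v hv0 hv Q hQ hmult P D₁ D₂ h₁ h₂
  rw [← Del_gp]
  have hne := fun v (hv : v ≠ 0) => ev_gp_ne_zero hxy (v := v) hv
  have hgp : ∀ i, gp x y i ≠ 0 := by
    intro i
    rw [← ev_single (gp x y) i]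
    apply hne
    intro h
    have := congrFun h i
    simp at this
  have hl0 : ∀ i : Fin n, l i ≠ 0 := by
    intro i
    obtain ⟨j, hj⟩ : ∃ j : Fin n, i ≠ j := by
      by_cases h0 : i = ⟨0, by omega⟩
      · refine ⟨⟨1, by omega⟩, ?_⟩
        rw [h0]
        intro h
        simp at h
      · exact ⟨_, h0⟩
    exact (hl i j hj).ne_zero 0
  obtain ⟨c, hc, hreg, i₀, hi₀⟩ := exists_scale P hgp
  obtain ⟨z, hz⟩ : ∃ z : Fin 3 → K, z = fun i => c * gp x y i := ⟨_, rfl⟩
  have hzreg : ∀ i, Ge P 0 (z i) := by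
    intro i
    rw [hz]
    exact hreg i
  have hzi₀ : P.ord (z i₀) = 0 := by
    rw [hz]
    exact hi₀
  have hevz : ∀ w, ev z w = c * ev (gp x y) w := by
    intro w
    rw [hz, ev_scale]
  have hzne : ∀ w : V3, w ≠ 0 → ev z w ≠ 0 := by
    intro w hw
    rw [hevz]
    exact mul_ne_zero hc (hne w hw)
  -- the scaled root
  obtain ⟨u, hu⟩ : ∃ u : K, u = c ^ k * v := ⟨_, rfl⟩
  have hu0 : u ≠ 0 := hu ▸ mul_ne_zero (pow_ne_zero _ hc) hv0
  have hu2 : u ^ 3 = ∏ i, ev z (l i) ^ w i := by
    rw [hu, mul_pow, hv]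
    simp only [hevz, mul_pow]
    rw [Finset.prod_mul_distrib, Finset.prod_pow_eq_pow_sum, hsum, ← pow_mul, mul_comm k 3]
  have hord : 3 * P.ord u = ∑ i, (w i : ℤ) * P.ord (ev z (l i)) := by
    have h1 := ord_prod P Finset.univ (fun i => ev z (l i) ^ w i)
      (fun i _ => pow_ne_zero _ (hzne _ (hl0 i)))
    rw [← hu2, P.ord_pow] at h1
    simp only [P.ord_pow] at h1
    rw [← h1]
    push_cast
    rfl
  have hform : Del D₁ D₂ (gp x y) * (MvPolynomial.aeval (gp x y) Q / v) =
      Del D₁ D₂ z * MvPolynomial.aeval z Q / u := by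
    have h3 : MvPolynomial.aeval z Q = c ^ (k - 3) * MvPolynomial.aeval (gp x y) Q := by
      have h4 := Pool.Agent.Helper397.HK.aeval_smul_of_homog hQ c (gp x y)
      rw [← h4]
      congr 2
    rw [h3, hz, Del_smul, hu]
    obtain ⟨e, rfl⟩ : ∃ e, k = e + 3 := ⟨k - 3, by omega⟩
    rw [Nat.add_sub_cancel]
    field_simp
    ring
  rw [hform]
  -- the order of the denominator
  have hthr : ∑ i, (w i : ℤ) * P.ord (ev z (l i)) =
      ∑ i ∈ thr l (WP P z), (w i : ℤ) * P.ord (ev z (l i)) := by
    symm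
    apply Finset.sum_subset (Finset.subset_univ _)
    intro i _ hi
    rw [mem_thr] at hi
    rw [ord_of_notMem hzreg hi, mul_zero]
  have hWfin : Module.finrank ℂ (WP P z) ≤ 2 := by
    have he₀ : (Pi.single i₀ 1 : V3) ∉ WP P z := by
      intro h
      rw [mem_WP, ev_single] at h
      rcases h with h | h
      · exact mul_ne_zero hc (hgp i₀) (by rw [hz] at h; exact h)
      · omega
    have h1 : WP P z < ⊤ := lt_top_iff_ne_top.2 fun h => he₀ (by rw [h]; trivial)
    have h2 := Submodule.finrank_lt_finrank_of_lt h1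
    rw [finrank_top] at h2
    have h3 : Module.finrank ℂ V3 = 3 := by simp
    omega
  have hQm := hmult (WP P z) hWfin
  obtain ⟨r, hr⟩ : ∃ r, r = W w (thr l (WP P z)) := ⟨_, rfl⟩
  rw [← hr] at hQm
  by_cases hW : WP P z = ⊥
  · -- no linear form is positive
    have h3 : thr l (WP P z) = ∅ := by
      rw [Finset.eq_empty_iff_forall_notMem]
      intro i hi
      rw [mem_thr, hW, Submodule.mem_bot] at hi
      exact hl0 i hi
    rw [hthr, h3, Finset.sum_empty] at hord
    have h4 : P.ord u = 0 := by omega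
    have h5 : Ge P 0 u⁻¹ := Or.inr (by rw [P.ord_inv, h4, neg_zero])
    have h6 := ge_Del_zero h₁ h₂ hzreg
    have h7 : Ge P 0 (MvPolynomial.aeval z Q) := by
      have := ge_of_mem_pow hzreg (W := (⊥ : Submodule ℂ V3)) (a := 0) (m := 0) (Q := Q)
        (fun w hw => by
          rw [(Submodule.mem_bot ℂ).1 hw, ev_zero]
          exact Ge.zero) (by rw [pow_zero, Ideal.one_eq_top]; trivial)
      simpa using this
    rw [div_eq_mul_inv]
    exact ((h6.mul h7).mul h5).mono (by omega)
  · obtain ⟨b, hb, hb0, ha0, hab, hb1, hmin, hmax⟩ := exists_coords hzreg hzne hzi₀ hW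
    obtain ⟨α, hα⟩ : ∃ α, α = P.ord (ev z (b 1)) := ⟨_, rfl⟩
    obtain ⟨β, hβ⟩ : ∃ β, β = P.ord (ev z (b 2)) := ⟨_, rfl⟩
    rw [← hα] at ha0 hab hmin hmax
    rw [← hβ] at hab hb1
    have hbne : ∀ j, ev z (b j) ≠ 0 := fun j => hzne _ (hb.ne_zero j)
    -- the numerator
    have h3 : Ge P (α + β - 1) (Del D₁ D₂ z) := by
      have h4 := ge_Del h₁ h₂ (z := fun j => ev z (b j)) hbne hb0
      rw [Del_basis] at h4
      have hdet : Matrix.det (Matrix.of b) ≠ 0 := by
        have h5 : LinearIndependent ℂ (Matrix.of b).row := hb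
        have h6 := Matrix.linearIndependent_rows_iff_isUnit.1 h5
        exact (Matrix.isUnit_iff_isUnit_det _).1 h6 |>.ne_zero
      have h7 := Ge.mul (Ge.const (P := P) (Matrix.det (Matrix.of b))⁻¹) h4
      rw [← mul_assoc, ← map_mul, inv_mul_cancel₀ hdet, map_one, one_mul, zero_add, ← hα,
        ← hβ] at h7
      exact h7
    have h4 : Ge P (((r / 3 - 1 : ℕ) : ℤ) * α) (MvPolynomial.aeval z Q) := by
      refine ge_of_mem_pow hzreg ?_ hQm
      intro w hw
      by_cases hw0 : w = 0
      · rw [hw0, ev_zero]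
        exact Ge.zero
      · exact Or.inr (hmin w hw hw0)
    -- the denominator
    have h5 : 3 * P.ord u ≤ r * α + 2 * (β - α) := by
      rw [hord, hthr]
      have h6 : ∀ i ∈ thr l (WP P z), (w i : ℤ) * P.ord (ev z (l i)) ≤
          (w i : ℤ) * α + if l i ∈ Submodule.span ℂ {b 2} then 2 * (β - α) else 0 := by
        intro i hi
        have hwi : 0 ≤ (w i : ℤ) ∧ (w i : ℤ) ≤ 2 := by
          rcases hw i with h | h <;> rw [h] <;> norm_num
        rw [mem_thr] at hi
        by_cases h7 : l i ∈ Submodule.span ℂ {b 2}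
        · rw [if_pos h7]
          obtain ⟨t, ht⟩ := Submodule.mem_span_singleton.1 h7
          have ht0 : t ≠ 0 := by
            rintro rfl
            rw [zero_smul] at ht
            exact hl0 i ht.symm
          rw [← ht, ev_smul, P.ord_mul ((map_ne_zero _).2 ht0) (hbne 2), P.ord_const ht0, ← hβ]
          nlinarith
        · rw [if_neg h7]
          have := hmax _ hi h7
          have := mul_le_mul_of_nonneg_left this hwi.1
          omega
      have h8 : ((thr l (WP P z)).filter fun i => l i ∈ Submodule.span ℂ {b 2}).card ≤ 1 := by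
        rw [Finset.card_le_one]
        intro i hi j hj
        by_contra hij
        rw [Finset.mem_filter] at hi hj
        obtain ⟨s, hs⟩ := Submodule.mem_span_singleton.1 hi.2
        obtain ⟨t, ht⟩ := Submodule.mem_span_singleton.1 hj.2
        have h9 := LinearIndependent.pair_iff.1 (hl i j hij) t (-s) (by
          rw [← hs, ← ht, smul_smul, neg_smul, smul_smul, mul_comm t s, add_neg_cancel])
        apply hl0 j
        rw [← ht, h9.1, zero_smul]
      calc ∑ i ∈ thr l (WP P z), (w i : ℤ) * P.ord (ev z (l i)) ≤ ∑ i ∈ thr l (WP P z),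
            ((w i : ℤ) * α + if l i ∈ Submodule.span ℂ {b 2} then 2 * (β - α) else 0) :=
              Finset.sum_le_sum h6
        _ = r * α + ((thr l (WP P z)).filter fun i => l i ∈ Submodule.span ℂ {b 2}).card *
              (2 * (β - α)) := by
            rw [Finset.sum_add_distrib, ← Finset.sum_mul, ← Finset.sum_filter, Finset.sum_const, hr]
            simp only [nsmul_eq_mul, W]
            push_cast
            rfl
        _ ≤ r * α + 2 * (β - α) := by
            have h9 : (((thr l (WP P z)).filter fun i => l i ∈ Submodule.span ℂ {b 2}).card : ℤ) ≤ 1 := by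
              exact_mod_cast h8
            have h10 : 0 ≤ β - α := by omega
            nlinarith
    have h11 := h3.mul h4
    have h12 : P.ord u ≤ α + β - 1 + ((r / 3 - 1 : ℕ) : ℤ) * α := by
      by_cases hf : r / 3 = 0
      · have h13 : (r : ℤ) ≤ 2 := by
          have : r ≤ 2 := by omega
          exact_mod_cast this
        have h14 : (r : ℤ) * α ≤ 2 * α := mul_le_mul_of_nonneg_right h13 ha0
        rw [hf]
        simp only [Nat.zero_sub, Nat.cast_zero, zero_mul]
        omega
      · have h13 : (r : ℤ) ≤ 3 * ((r / 3 - 1 : ℕ) : ℤ) + 5 := by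
          have : r ≤ 3 * (r / 3 - 1) + 5 := by omega
          exact_mod_cast this
        have h14 : (r : ℤ) * α ≤ (3 * ((r / 3 - 1 : ℕ) : ℤ) + 5) * α :=
          mul_le_mul_of_nonneg_right h13 ha0
        have h15 : (3 * ((r / 3 - 1 : ℕ) : ℤ) + 5) * α =
            3 * (((r / 3 - 1 : ℕ) : ℤ) * α) + 5 * α := by
          ring
        omega
    have h16 : Ge P (-P.ord u) u⁻¹ := Or.inr (by rw [P.ord_inv])
    rw [div_eq_mul_inv]
    exact (h11.mul h16).mono (by omega)

end Pool.Agent.J4H41.TL
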